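import Pool.Agent.H6.RCQ.Stmts1
import Pool.Agent.H6.RCQ.Stmts2

set_option autoImplicit false

namespace Pool.Agent.H42.RCQ

open Pool.Agent.H6.RCQ
open Pool.Agent.H39.RC
open Classical

section
variable {V : Type} {G : SimpleGraph V} {p : ℕ} {lab : V → V → Fin p} {R : Finset V} {x y : V}

theorem mem_pb {b : V} : b ∈ PB G R x y ↔ b ∈ R ∧ G.Adj x b ∧ ¬ G.Adj y b ∧ b ≠ y := by
  unfold PB
  rw [Finset.mem_filter]

theorem mem_cn {b : V} : b ∈ CN G R x y ↔ b ∈ R ∧ G.Adj x b ∧ G.Adj y b := by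
  unfold CN
  rw [Finset.mem_filter]

theorem mem_pp {a : V} : a ∈ PP G R x y ↔ a ∈ CN G R x y ∧
    ∃ w, (w ∈ PB G R x y ∨ w ∈ PB G R y x) ∧ At G R x y w a := by
  unfold PP
  rw [Finset.mem_filter]

theorem pb_out {b : V} (hb : b ∈ PB G R x y) : b ∉ XX ({x} : Set V) {y} (CN G R x y) := by
  rw [mem_pb] at hb
  rintro ((h | h) | h)
  · rw [Set.mem_singleton_iff] at h
    exact hb.2.1.ne h.symm
  · rw [Set.mem_singleton_iff] at h
    exact hb.2.2.2 h
  · rw [Finset.mem_coe, mem_cn] at h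
    exact hb.2.2.1 h.2.2

theorem out_lab (hc : Cfg p G lab R) {b a a1 : V} (hb : b ∈ PB G R x y) (ha : a ∈ CN G R x y)
    (haP : a ∉ PP G R x y) (h1 : ∀ w ∈ PP G R x y, G.Adj w a → w = a1) :
    G.Adj b a1 ∨ lab x b ≠ lab x a := by
  have hbX := pb_out hb
  have hb' := mem_pb.1 hb
  have ha' := mem_cn.1 ha
  have hne : b ≠ a := by
    rintro rfl
    exact hb'.2.2.1 ha'.2.2
  rcases hc.lk b hb'.1 a ha'.1 hne with h | ⟨w, _, h2, h3, h4⟩
  · exact absurd (mem_pp.2 ⟨ha, b, Or.inl hb, lnk_adj hbX h⟩) haP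
  · by_cases hwx : w = x
    · subst hwx
      exact Or.inr h4
    by_cases hwy : w = y
    · subst hwy
      exact absurd h2 hb'.2.2.1
    by_cases hwc : w ∈ CN G R x y
    · have hwP : w ∈ PP G R x y := mem_pp.2 ⟨hwc, b, Or.inl hb, lnk_adj hbX h2.symm⟩
      have := h1 w hwP h3
      subst this
      exact Or.inl h2.symm
    · exfalso
      have hwX : w ∉ XX ({x} : Set V) {y} (CN G R x y) := by
        rintro ((h | h) | h)
        · exact hwx h
        · exact hwy h
        · exact hwc h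
      exact haP (mem_pp.2 ⟨ha, b, Or.inl hb, lnk_cons hbX h2.symm (lnk_adj hwX h3)⟩)

end

section
variable {V : Type} {G : SimpleGraph V} {lab : V → V → Fin 2} {R : Finset V} {x y : V}

theorem one_label (hc : Cfg 2 G lab R) {a0 a1 a3 a4 : V}
    (h4 : 4 ≤ (PB G R x y).card)
    (h0C : a0 ∈ CN G R x y) (h4C : a4 ∈ CN G R x y) (h0P : a0 ∉ PP G R x y)
    (h4P : a4 ∉ PP G R x y) (e0 : ∀ w ∈ PP G R x y, G.Adj w a0 → w = a1)
    (e4 : ∀ w ∈ PP G R x y, G.Adj w a4 → w = a3)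
    (k1 : ∀ b ∈ PB G R x y, ∀ b' ∈ PB G R x y, G.Adj b a1 → G.Adj b' a1 → b = b')
    (k3 : ∀ b ∈ PB G R x y, ∀ b' ∈ PB G R x y, G.Adj b a3 → G.Adj b' a3 → b = b')
    (hn : ∀ b ∈ PB G R x y, ¬ (G.Adj b a1 ∧ G.Adj b a3)) :
    ∃ k : Fin 2, ∀ b ∈ PB G R x y, lab x b = k := by
  have c1 : ((PB G R x y).filter (fun b => G.Adj b a1)).card ≤ 1 := by
    rw [Finset.card_le_one]
    intro b hb b' hb'
    rw [Finset.mem_filter] at hb hb'
    exact k1 b hb.1 b' hb'.1 hb.2 hb'.2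
  have c3 : ((PB G R x y).filter (fun b => G.Adj b a3)).card ≤ 1 := by
    rw [Finset.card_le_one]
    intro b hb b' hb'
    rw [Finset.mem_filter] at hb hb'
    exact k3 b hb.1 b' hb'.1 hb.2 hb'.2
  have hex : ∃ b ∈ PB G R x y, ¬ G.Adj b a1 ∧ ¬ G.Adj b a3 := by
    by_contra hcon
    push Not at hcon
    have : PB G R x y ⊆ (PB G R x y).filter (fun b => G.Adj b a1) ∪
        (PB G R x y).filter (fun b => G.Adj b a3) := by
      intro b hb
      rw [Finset.mem_union, Finset.mem_filter, Finset.mem_filter]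
      by_cases h : G.Adj b a1
      · exact Or.inl ⟨hb, h⟩
      · exact Or.inr ⟨hb, hcon b hb h⟩
    have := (Finset.card_le_card this).trans (Finset.card_union_le _ _)
    omega
  obtain ⟨b0, hb0, n1, n3⟩ := hex
  have f0 := (out_lab hc hb0 h0C h0P e0).resolve_left n1
  have f4 := (out_lab hc hb0 h4C h4P e4).resolve_left n3
  refine ⟨lab x b0, fun b hb => ?_⟩
  have g0 := out_lab hc hb h0C h0P e0
  have g4 := out_lab hc hb h4C h4P e4
  have fin2 : ∀ u v w : Fin 2, u ≠ w → v ≠ w → u = v := by decide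
  have hl : lab x a0 = lab x a4 := fin2 _ _ _ f0.symm f4.symm
  by_contra hne
  have hb1 : lab x b = lab x a0 := fin2 _ _ _ hne f0.symm
  rcases g0 with g0 | g0
  · rcases g4 with g4 | g4
    · exact hn b hb ⟨g0, g4⟩
    · exact g4 (hb1.trans hl)
  · exact g0 hb1

end

theorem ej_symm {V : Type} {G : SimpleGraph V} {P Q : Set V} {S : Finset V} {s t : V}
    (h : EJ G P Q S s t) : EJ G P Q S t s := by
  obtain ⟨h1, h2, h3, h4⟩ := h
  refine ⟨h2, h1, h3.symm, ?_⟩
  rcases h4 with h4 | ⟨v, h4, h5⟩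
  · exact Or.inl h4.symm
  · exact Or.inr ⟨v, h5, h4⟩

theorem a2b (hAKEY : AKEYStmt) (hAK : AKStmt) (hAC : ACStmt) (hAS : ASStmt) (hAT : ATStmt)
    (hPE2 : PE2Stmt) : A2BStmt := by
  intro V G lab R x y h hFF a1 a2 a3 hPP n12 n13 n23 j12 j23 hat hE hB
  obtain ⟨h', sCN, sPP, sNN, sFF, sAt, hPol⟩ := hAS V G 2 lab R x y h
  have m1 : a1 ∈ PP G R x y := by rw [hPP]; simp
  have m2 : a2 ∈ PP G R x y := by rw [hPP]; simp
  have m3 : a3 ∈ PP G R x y := by rw [hPP]; simp
  have hmem : ∀ w ∈ PP G R x y, w = a1 ∨ w = a2 ∨ w = a3 := by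
    intro w hw
    rw [hPP] at hw
    simpa using hw
  have hPPc : (PP G R x y).card = 3 := by
    rw [hPP]
    exact Finset.card_eq_three.2 ⟨a1, a2, a3, n12, n13, n23, rfl⟩
  have hNN : (NN G R x y).card ≤ 5 := by
    rcases hAT V G 2 lab R x y h with t | t
    · have := t.1
      omega
    · exact t.1
  have hCNN : CN G R x y ⊆ NN G R x y := by
    intro a ha
    by_contra hcon
    have : a ∈ FF G R x y := by
      unfold FF
      rw [Finset.mem_sdiff]
      exact ⟨ha, hcon⟩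
    rw [hFF] at this
    exact absurd this (Finset.notMem_empty a)
  have hA5 : (CN G R x y).card = 5 := le_antisymm ((Finset.card_le_card hCNN).trans hNN) h.five
  have hPC : PP G R x y ⊆ CN G R x y := fun a ha => (mem_pp.1 ha).1
  -- the two outer elements
  have hout : (CN G R x y \ PP G R x y).card = 2 := by
    rw [Finset.card_sdiff_of_subset hPC]
    omega
  obtain ⟨u, v, huv, hset⟩ := Finset.card_eq_two.1 hout
  have hu : u ∈ CN G R x y ∧ u ∉ PP G R x y := by
    rw [← Finset.mem_sdiff, hset]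
    simp
  have hv : v ∈ CN G R x y ∧ v ∉ PP G R x y := by
    rw [← Finset.mem_sdiff, hset]
    simp
  have near : ∀ w ∈ CN G R x y, w ∉ PP G R x y → ∃ a ∈ PP G R x y, G.Adj w a := by
    intro w hw hwP
    have := hCNN hw
    unfold NN at this
    rw [Finset.mem_filter] at this
    rcases this.2 with t | t
    · exact absurd t hwP
    · exact t
  have ne_of : ∀ w, w ∉ PP G R x y → w ≠ a1 ∧ w ≠ a2 ∧ w ≠ a3 := by
    intro w hw
    refine ⟨?_, ?_, ?_⟩
    · rintro rfl; exact hw m1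
    · rintro rfl; exact hw m2
    · rintro rfl; exact hw m3
  have ejo : ∀ w ∈ CN G R x y, w ∉ PP G R x y → ∀ a ∈ PP G R x y, G.Adj w a →
      EJ G {x} {y} (CN G R x y) a w := by
    intro w hw hwP a ha had
    exact ⟨hPC ha, hw, had.symm.ne, Or.inl had.symm⟩
  have no2 : ∀ w ∈ CN G R x y, w ∉ PP G R x y → ¬ G.Adj w a2 := by
    intro w hw hwP had
    obtain ⟨q1, q2, q3⟩ := ne_of w hwP
    exact hPE2 V G {x} {y} (CN G R x y) h.cfg.pg hPol a2 a1 a3 w (ej_symm j12) j23
      (ejo w hw hwP a2 m2 had) n13 q1.symm q3.symm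
  have no1 : ¬ (G.Adj u a1 ∧ G.Adj v a1) := by
    rintro ⟨t1, t2⟩
    exact hPE2 V G {x} {y} (CN G R x y) h.cfg.pg hPol a1 a2 u v j12 (ejo u hu.1 hu.2 a1 m1 t1)
      (ejo v hv.1 hv.2 a1 m1 t2) (ne_of u hu.2).2.1.symm (ne_of v hv.2).2.1.symm huv
  have no3 : ¬ (G.Adj u a3 ∧ G.Adj v a3) := by
    rintro ⟨t1, t2⟩
    exact hPE2 V G {x} {y} (CN G R x y) h.cfg.pg hPol a3 a2 u v (ej_symm j23)
      (ejo u hu.1 hu.2 a3 m3 t1)
      (ejo v hv.1 hv.2 a3 m3 t2) (ne_of u hu.2).2.1.symm (ne_of v hv.2).2.1.symm huv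
  have neither : ∀ w ∈ CN G R x y, w ∉ PP G R x y → G.Adj w a1 ∨ G.Adj w a3 := by
    intro w hw hwP
    obtain ⟨a, ha, had⟩ := near w hw hwP
    rcases hmem a ha with rfl | rfl | rfl
    · exact Or.inl had
    · exact absurd had (no2 w hw hwP)
    · exact Or.inr had
  have hE0 : ∃ a0 a4, a0 ∈ CN G R x y ∧ a4 ∈ CN G R x y ∧ a0 ∉ PP G R x y ∧ a4 ∉ PP G R x y ∧
      (∀ w ∈ PP G R x y, G.Adj w a0 → w = a1) ∧ (∀ w ∈ PP G R x y, G.Adj w a4 → w = a3) := by
    have hu' := neither u hu.1 hu.2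
    have hv' := neither v hv.1 hv.2
    rcases hu' with hu' | hu'
    · have q1 : ¬ G.Adj v a1 := fun t => no1 ⟨hu', t⟩
      have q2 := hv'.resolve_left q1
      have q3 : ¬ G.Adj u a3 := fun t => no3 ⟨t, q2⟩
      refine ⟨u, v, hu.1, hv.1, hu.2, hv.2, ?_, ?_⟩
      · intro w hw had
        rcases hmem w hw with rfl | rfl | rfl
        · rfl
        · exact absurd had.symm (no2 u hu.1 hu.2)
        · exact absurd had.symm q3
      · intro w hw had
        rcases hmem w hw with rfl | rfl | rfl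
        · exact absurd had.symm q1
        · exact absurd had.symm (no2 v hv.1 hv.2)
        · rfl
    · have q1 : ¬ G.Adj v a3 := fun t => no3 ⟨hu', t⟩
      have q2 := hv'.resolve_right q1
      have q3 : ¬ G.Adj u a1 := fun t => no1 ⟨t, q2⟩
      refine ⟨v, u, hv.1, hu.1, hv.2, hu.2, ?_, ?_⟩
      · intro w hw had
        rcases hmem w hw with rfl | rfl | rfl
        · rfl
        · exact absurd had.symm (no2 v hv.1 hv.2)
        · exact absurd had.symm q1
      · intro w hw had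
        rcases hmem w hw with rfl | rfl | rfl
        · exact absurd had.symm q3
        · exact absurd had.symm (no2 u hu.1 hu.2)
        · rfl
  obtain ⟨a0, a4, h0C, h4C, h0P, h4P, e0, e4⟩ := hE0
  -- cardinalities
  have hcard := (hAC V G 2 lab R x y h).2
  rw [h.card, hA5] at hcard
  have i1 : ir R x ≤ 1 := by unfold ir; split_ifs <;> omega
  have i2 : ir R y ≤ 1 := by unfold ir; split_ifs <;> omega
  have hxa2 : x ≠ a2 := (mem_cn.1 (hPC m2)).2.1.ne
  have hya2 : y ≠ a2 := (mem_cn.1 (hPC m2)).2.2.ne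
  have hB5 : (PB G R x y).card ≤ 5 := by
    have : PB G R x y ⊆ CN G R x a2 := by
      intro b hb
      have hb' := mem_pb.1 hb
      exact mem_cn.2 ⟨hb'.1, hb'.2.1, (hB b hb).symm⟩
    exact (Finset.card_le_card this).trans ((h.max x a2 hxa2).trans (le_of_eq hA5))
  have hE5 : (PB G R y x).card ≤ 5 := by
    have : PB G R y x ⊆ CN G R y a2 := by
      intro b hb
      have hb' := mem_pb.1 hb
      exact mem_cn.2 ⟨hb'.1, hb'.2.1, (hE b hb).symm⟩
    exact (Finset.card_le_card this).trans ((h.max y a2 hya2).trans (le_of_eq hA5))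
  have atx : ∀ b ∈ PB G R x y, ∀ a ∈ PP G R x y, G.Adj b a → At G R x y b a := by
    intro b hb a ha had
    exact lnk_adj (pb_out hb) had
  have aty : ∀ b ∈ PB G R y x, ∀ a ∈ PP G R x y, G.Adj b a → At G R x y b a := by
    intro b hb a ha had
    rw [← sAt]
    exact lnk_adj (pb_out hb) had
  -- labels at x
  obtain ⟨k, hk⟩ := one_label (lab := lab) h.cfg (by omega) h0C h4C h0P h4P e0 e4
    (fun b hb b' hb' t t' => by
      by_contra hne
      exact hAK V G 2 lab R x y h a1 (hPC m1) a2 (hPC m2) n12 b hb b' hb' hne t (hB b hb) t'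
        (hB b' hb'))
    (fun b hb b' hb' t t' => by
      by_contra hne
      exact hAK V G 2 lab R x y h a3 (hPC m3) a2 (hPC m2) n23.symm b hb b' hb' hne t (hB b hb) t'
        (hB b' hb'))
    (fun b hb t => (hat b (Or.inl hb)).2 ⟨atx b hb a1 m1 t.1, atx b hb a3 m3 t.2⟩)
  -- labels at y
  obtain ⟨m, hm⟩ := one_label (x := y) (y := x) (lab := lab) h'.cfg (by omega)
    (by rw [sCN]; exact h0C) (by rw [sCN]; exact h4C) (by rw [sPP]; exact h0P)
    (by rw [sPP]; exact h4P) (by rw [sPP]; exact e0) (by rw [sPP]; exact e4)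
    (fun b hb b' hb' t t' => by
      by_contra hne
      exact hAK V G 2 lab R y x h' a1 (by rw [sCN]; exact hPC m1) a2 (by rw [sCN]; exact hPC m2)
        n12 b hb b' hb' hne t (hE b hb) t' (hE b' hb'))
    (fun b hb b' hb' t t' => by
      by_contra hne
      exact hAK V G 2 lab R y x h' a3 (by rw [sCN]; exact hPC m3) a2 (by rw [sCN]; exact hPC m2)
        n23.symm b hb b' hb' hne t (hE b hb) t' (hE b' hb'))
    (fun b hb t => (hat b (Or.inr hb)).2 ⟨aty b hb a1 m1 t.1, aty b hb a3 m3 t.2⟩)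
  have key := (hAKEY V G 2 lab R x y h k m).1
  rw [Finset.filter_true_of_mem hk, Finset.filter_true_of_mem hm] at key
  omega

end Pool.Agent.H42.RCQ
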