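import Pool.Agent.H6.RCQ.Stmts3

set_option autoImplicit false

namespace Pool.Agent.H42.RCQ

open Pool.Agent.H6.RCQ
open Pool.Agent.H39.RC
open Classical

/-- the closed codegree in terms of the codegree -/
theorem cc_card {V : Type} (G : SimpleGraph V) (R : Finset V) (x z : V) :
    (CC G R x z).card ≤ (CN G R x z).card + (if G.Adj x z ∧ z ∈ R then 1 else 0) := by
  by_cases h : G.Adj x z ∧ z ∈ R
  · rw [if_pos h]
    have : CC G R x z ⊆ insert z (CN G R x z) := by
      intro t ht
      unfold CC at ht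
      rw [Finset.mem_filter] at ht
      rw [Finset.mem_insert]
      unfold CN
      rw [Finset.mem_filter]
      rcases ht.2.2 with e | e
      · exact Or.inl e
      · exact Or.inr ⟨ht.1, ht.2.1, e⟩
    exact (Finset.card_le_card this).trans (Finset.card_insert_le _ _)
  · rw [if_neg h]
    have : CC G R x z ⊆ CN G R x z := by
      intro t ht
      unfold CC at ht
      rw [Finset.mem_filter] at ht
      unfold CN
      rw [Finset.mem_filter]
      rcases ht.2.2 with e | e
      · subst e
        exact absurd ⟨ht.2.1, ht.1⟩ h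
      · exact ⟨ht.1, ht.2.1, e⟩
    exact (Finset.card_le_card this)

theorem bb (hB10 : B10Stmt) (hGC : GCStmt) (hLF : LFStmt) (hR4N : R4NStmt) (hR3N : R3NStmt) :
    BBStmt := by
  intro V G p lab R h hp
  by_contra hcon
  have hcon' : ∃ x, 7 ≤ (D G R x).card := by
    unfold DegLe at hcon
    push Not at hcon
    obtain ⟨x, hx⟩ := hcon
    exact ⟨x, hx⟩
  have hlf : Lf G R := hLF V G p lab R h.cfg
  -- a vertex of maximal degree
  have hP7 : ∃ x, 7 ≤ (D G R x).card := hcon'
  set d := Nat.findGreatest (fun n => ∃ x, n ≤ (D G R x).card) 10 with hd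
  have hPd : ∃ x, d ≤ (D G R x).card :=
    Nat.findGreatest_spec (P := fun n => ∃ x, n ≤ (D G R x).card) (by norm_num : 7 ≤ 10) hP7
  have hd7 : 7 ≤ d :=
    Nat.le_findGreatest (P := fun n => ∃ x, n ≤ (D G R x).card) (by norm_num : 7 ≤ 10) hP7
  have hd10 : d ≤ 10 := Nat.findGreatest_le 10
  have hdeg : DegLe G R d := by
    intro y
    exact Nat.le_findGreatest (P := fun n => ∃ x, n ≤ (D G R x).card)
      (hB10 V G p lab R h y).1 ⟨y, le_refl _⟩
  obtain ⟨x, hx⟩ := hPd
  have hxd : (D G R x).card = d := le_antisymm (hdeg x) hx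
  obtain ⟨_, hU⟩ := hB10 V G p lab R h x
  have hne : (D G R x).Nonempty := by
    rw [← Finset.card_pos]
    omega
  obtain ⟨z, z', hz, hz', hcov⟩ := hGC V G R x hlf hne hU
  have hsub : D G R x ⊆ CC G R x z ∪ CC G R x z' := by
    intro s hs
    rw [Finset.mem_union]
    exact hcov s hs
  have hle := (Finset.card_le_card hsub).trans (Finset.card_union_le _ _)
  have hp2 : 9 ≤ p ^ 2 := by nlinarith
  have hcard := h.card
  have hbig : ∃ w, w ≠ x ∧ 4 ≤ (CC G R x w).card := by
    by_contra hn
    push Not at hn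
    have h1 := hn z hz
    have h2 := hn z' hz'
    omega
  obtain ⟨w, hwx, hw⟩ := hbig
  have hcc := cc_card G R x w
  have hco := h.co x w (Ne.symm hwx)
  by_cases h4 : (CN G R x w).card = 4
  · have := (hR4N V G R x w d hlf h.co (Ne.symm hwx) h4 hdeg).1 hd7 hxd
    have h5 := hdeg w
    omega
  · have hadj : G.Adj x w ∧ w ∈ R := by
      by_contra hn
      rw [if_neg hn] at hcc
      omega
    rw [if_pos hadj] at hcc
    have h3 : (CN G R x w).card = 3 := by omega
    have := hR3N V G R x w d hlf hadj.1 hadj.2 h3 hdeg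
    omega

end Pool.Agent.H42.RCQ
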