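import Pool.Agent.H6.RCQ.Stmts5

set_option autoImplicit false

namespace Pool.Agent.H42.RCQ

open Pool.Agent.H6.RCQ

theorem pt_zero (L : ℝ) : pt L 0 = (0, -L) := by simp [pt]

theorem pt_pos (L : ℝ) {k : ℕ} (h : 1 ≤ k) : pt L k = ((k : ℝ), (k : ℝ) ^ 2) := by
  have h0 : k ≠ 0 := by omega
  simp [pt, h0]

/-- points of a segment -/
theorem seg_iff (x1 y1 x2 y2 : ℝ) (z : ℝ × ℝ) (h : z ∈ segment ℝ (x1, y1) (x2, y2)) :
    ∃ t : ℝ, 0 ≤ t ∧ t ≤ 1 ∧ z.1 = (1 - t) * x1 + t * x2 ∧ z.2 = (1 - t) * y1 + t * y2 := by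
  obtain ⟨a, b, ha, hb, hab, rfl⟩ := h
  refine ⟨b, hb, by linarith, ?_, ?_⟩
  · have : a = 1 - b := by linarith
    subst this
    simp
  · have : a = 1 - b := by linarith
    subst this
    simp

theorem lg1 : LG1Stmt := by
  intro N L hL
  have hN : (0 : ℝ) ≤ N := Nat.cast_nonneg N
  have hLpos : 0 < L := by nlinarith
  have hb : ∀ a b : ℕ, a ≤ N → b ≤ N → (a : ℝ) * b < L := by
    intro a b ha hb
    have h1 : (a : ℝ) ≤ N := by exact_mod_cast ha
    have h2 : (b : ℝ) ≤ N := by exact_mod_cast hb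
    have h3 : (0 : ℝ) ≤ a := Nat.cast_nonneg a
    have h4 : (0 : ℝ) ≤ b := Nat.cast_nonneg b
    nlinarith [mul_le_mul h1 h2 h4 hN]
  refine ⟨?_, ?_, ?_, ?_⟩
  · intro i j hi hj h
    rcases Nat.eq_zero_or_pos i with rfl | hi0
    · rcases Nat.eq_zero_or_pos j with rfl | hj0
      · rfl
      · rw [pt_zero, pt_pos L hj0] at h
        have h1 := congrArg Prod.fst h
        simp only at h1
        have : (j : ℕ) = 0 := by exact_mod_cast h1.symm
        omega
    · rcases Nat.eq_zero_or_pos j with rfl | hj0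
      · rw [pt_zero, pt_pos L hi0] at h
        have h1 := congrArg Prod.fst h
        simp only at h1
        have : (i : ℕ) = 0 := by exact_mod_cast h1
        omega
      · rw [pt_pos L hi0, pt_pos L hj0] at h
        have h1 := congrArg Prod.fst h
        simp only at h1
        exact_mod_cast h1
  · intro j w hj hjN hwN hwj hw0 h
    have hw1 : 1 ≤ w := by omega
    rw [pt_zero, pt_pos L hj, pt_pos L hw1] at h
    obtain ⟨t, ht0, ht1, hx, hy⟩ := seg_iff _ _ _ _ _ h
    simp only at hx hy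
    have hj' : (0 : ℝ) < j := by exact_mod_cast hj
    have hw' : (0 : ℝ) < w := by exact_mod_cast hw1
    have hne : (w : ℝ) ≠ j := by exact_mod_cast hwj
    have hx' : (w : ℝ) = t * j := by linarith
    have hy' : (w : ℝ) ^ 2 * j = -L * j + w * L + w * j ^ 2 := by
      have : (w : ℝ) ^ 2 * j = ((1 - t) * -L + t * (j : ℝ) ^ 2) * j := by rw [hy]
      rw [this, hx']
      ring
    have h2 : ((w : ℝ) - j) * (w * j - L) = 0 := by nlinarith
    rcases mul_eq_zero.1 h2 with h3 | h3
    · exact hne (by linarith)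
    · have := hb w j hwN hjN
      linarith
  · intro j k z hj hjN hk hkN hjk h1 h2
    rw [pt_zero, pt_pos L hj] at h1
    rw [pt_zero, pt_pos L hk] at h2
    obtain ⟨t, ht0, ht1, hx, hy⟩ := seg_iff _ _ _ _ _ h1
    obtain ⟨s, hs0, hs1, hx2, hy2⟩ := seg_iff _ _ _ _ _ h2
    have hj' : (0 : ℝ) < j := by exact_mod_cast hj
    have hk' : (0 : ℝ) < k := by exact_mod_cast hk
    have hne : (j : ℝ) ≠ k := by exact_mod_cast hjk
    have e1 : t * j = s * k := by linarith
    have e2 : t * (L + (j : ℝ) ^ 2) = s * (L + (k : ℝ) ^ 2) := by linarith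
    have e3 : t * ((k : ℝ) - j) * (L - j * k) = 0 := by
      have : t * ((k : ℝ) - j) * (L - j * k) =
        k * (t * (L + (j : ℝ) ^ 2)) - (t * j) * (L + (k : ℝ) ^ 2) := by ring
      rw [this, e2, e1]
      ring
    have hLjk := hb j k hjN hkN
    have ht : t = 0 := by
      rcases mul_eq_zero.1 e3 with h | h
      · rcases mul_eq_zero.1 h with h | h
        · exact h
        · exact absurd (by linarith) hne
      · linarith
    rw [pt_zero]
    apply Prod.ext
    · simp only
      rw [hx, ht]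
      ring
    · simp only
      rw [hy, ht]
      ring
  · intro j k l z hj hjN hk hkN hl hlN h1 h2
    rw [pt_zero, pt_pos L hj] at h1
    rw [pt_pos L hk, pt_pos L hl] at h2
    obtain ⟨t, ht0, ht1, hx, hy⟩ := seg_iff _ _ _ _ _ h1
    obtain ⟨s, hs0, hs1, hx2, hy2⟩ := seg_iff _ _ _ _ _ h2
    have e1 : z.2 - z.1 ^ 2 = (1 - t) * (t * (j : ℝ) ^ 2 - L) := by
      rw [hx, hy]
      ring
    have e2 : z.2 - z.1 ^ 2 = s * (1 - s) * ((k : ℝ) - l) ^ 2 := by
      rw [hx2, hy2]
      ring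
    have e3 : 0 ≤ s * (1 - s) * ((k : ℝ) - l) ^ 2 :=
      mul_nonneg (mul_nonneg hs0 (by linarith)) (sq_nonneg _)
    have hjj := hb j j hjN hjN
    have e4 : t * (j : ℝ) ^ 2 - L < 0 := by
      have : t * (j : ℝ) ^ 2 ≤ 1 * (j : ℝ) ^ 2 := mul_le_mul_of_nonneg_right ht1 (sq_nonneg _)
      nlinarith
    have ht : t = 1 := by
      by_contra hne
      have : 0 < 1 - t := by
        rcases lt_or_eq_of_le ht1 with h | h
        · linarith
        · exact absurd h hne
      have := mul_neg_of_pos_of_neg this e4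
      linarith
    rw [pt_pos L hj]
    apply Prod.ext
    · simp only
      rw [hx, ht]
      ring
    · simp only
      rw [hy, ht]
      ring

end Pool.Agent.H42.RCQ
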