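import Pool.Agent.H42.RCQ.LG1

set_option autoImplicit false

namespace Pool.Agent.H42.RCQ

open Pool.Agent.H6.RCQ

/-- points of a chord -/
theorem chord (L : ℝ) {i j : ℕ} (hi : 1 ≤ i) (hij : i < j) (z : ℝ × ℝ)
    (h : z ∈ segment ℝ (pt L i) (pt L j)) :
    (i : ℝ) ≤ z.1 ∧ z.1 ≤ j ∧ z.2 = z.1 ^ 2 + (z.1 - i) * (j - z.1) := by
  rw [pt_pos L hi, pt_pos L (by omega : 1 ≤ j)] at h
  obtain ⟨t, ht0, ht1, hx, hy⟩ := seg_iff _ _ _ _ _ h
  have hlt : (i : ℝ) < j := by exact_mod_cast hij
  refine ⟨?_, ?_, ?_⟩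
  · rw [hx]
    nlinarith
  · rw [hx]
    nlinarith
  · rw [hy, hx]
    ring

theorem chord_end (L : ℝ) {i : ℕ} (hi : 1 ≤ i) (z : ℝ × ℝ) (h1 : z.1 = i) (h2 : z.2 = z.1 ^ 2) :
    z = pt L i := by
  rw [pt_pos L hi]
  apply Prod.ext
  · exact h1
  · simp only
    rw [h2, h1]

theorem lg2 : LG2Stmt := by
  intro L hL
  refine ⟨?_, ?_⟩
  · intro i j w hi hij h
    obtain ⟨h1, h2, h3⟩ := chord L hi hij _ h
    rcases Nat.eq_zero_or_pos w with rfl | hw
    · rw [pt_zero] at h1
      simp only at h1
      have : (1 : ℝ) ≤ i := by exact_mod_cast hi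
      linarith
    · rw [pt_pos L hw] at h1 h2 h3
      simp only at h1 h2 h3
      have h4 : ((w : ℝ) - i) * (j - w) = 0 := by linarith
      rcases mul_eq_zero.1 h4 with h5 | h5
      · left
        have : (w : ℝ) = i := by linarith
        exact_mod_cast this
      · right
        have : (w : ℝ) = j := by linarith
        exact_mod_cast this
  · intro i j k l z hi hij hk hkl hn1 hn2 hne h h'
    obtain ⟨a1, a2, a3⟩ := chord L hi hij _ h
    obtain ⟨b1, b2, b3⟩ := chord L hk hkl _ h'
    have hj : 1 ≤ j := by omega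
    have hl : 1 ≤ l := by omega
    have heq : (z.1 - i) * (j - z.1) = (z.1 - k) * (l - z.1) := by linarith
    -- it is enough to find the abscissa
    have key : ((z.1 = i ∨ z.1 = j) ∧ (z.1 = k ∨ z.1 = l)) →
        (z = pt L i ∨ z = pt L j) ∧ (z = pt L k ∨ z = pt L l) := by
      rintro ⟨c1, c2⟩
      have hsq : z.2 = z.1 ^ 2 := by
        rcases c1 with c | c <;> rw [a3, c] <;> ring
      refine ⟨?_, ?_⟩
      · rcases c1 with c | c
        · exact Or.inl (chord_end L hi z c hsq)
        · exact Or.inr (chord_end L hj z c hsq)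
      · rcases c2 with c | c
        · exact Or.inl (chord_end L hk z c hsq)
        · exact Or.inr (chord_end L hl z c hsq)
    apply key
    by_cases c1 : j ≤ k
    · have : (j : ℝ) ≤ k := by exact_mod_cast c1
      exact ⟨Or.inr (by linarith), Or.inl (by linarith)⟩
    by_cases c2 : l ≤ i
    · have : (l : ℝ) ≤ i := by exact_mod_cast c2
      exact ⟨Or.inl (by linarith), Or.inr (by linarith)⟩
    have c3 : (i ≤ k ∧ l ≤ j) ∨ (k ≤ i ∧ j ≤ l) := by omega
    rcases c3 with ⟨d1, d2⟩ | ⟨d1, d2⟩
    · have e1 : (i : ℝ) ≤ k := by exact_mod_cast d1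
      have e2 : (l : ℝ) ≤ j := by exact_mod_cast d2
      rcases lt_or_eq_of_le d1 with f1 | f1
      · have g1 : (i : ℝ) < k := by exact_mod_cast f1
        rcases lt_or_eq_of_le d2 with f2 | f2
        · have g2 : (l : ℝ) < j := by exact_mod_cast f2
          exfalso
          nlinarith [mul_nonneg (sub_nonneg.2 b1) (sub_nonneg.2 b2),
            mul_pos (sub_pos.2 g1) (sub_pos.2 g2), mul_nonneg (sub_nonneg.2 b1) (sub_nonneg.2 g2.le),
            mul_nonneg (sub_nonneg.2 g1.le) (sub_nonneg.2 b2)]
        · subst f2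
          have : ((k : ℝ) - i) * (l - z.1) = 0 := by nlinarith
          rcases mul_eq_zero.1 this with h5 | h5
          · linarith
          · exact ⟨Or.inr (by linarith), Or.inr (by linarith)⟩
      · subst f1
        have hlj : l ≠ j := by
          rintro rfl
          exact hne rfl
        have g2 : (l : ℝ) ≠ j := by exact_mod_cast hlj
        have : (z.1 - i) * ((j : ℝ) - l) = 0 := by nlinarith
        rcases mul_eq_zero.1 this with h5 | h5
        · exact ⟨Or.inl (by linarith), Or.inl (by linarith)⟩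
        · exact absurd (by linarith) g2
    · have e1 : (k : ℝ) ≤ i := by exact_mod_cast d1
      have e2 : (j : ℝ) ≤ l := by exact_mod_cast d2
      rcases lt_or_eq_of_le d1 with f1 | f1
      · have g1 : (k : ℝ) < i := by exact_mod_cast f1
        rcases lt_or_eq_of_le d2 with f2 | f2
        · have g2 : (j : ℝ) < l := by exact_mod_cast f2
          exfalso
          nlinarith [mul_nonneg (sub_nonneg.2 a1) (sub_nonneg.2 a2),
            mul_pos (sub_pos.2 g1) (sub_pos.2 g2), mul_nonneg (sub_nonneg.2 a1) (sub_nonneg.2 g2.le),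
            mul_nonneg (sub_nonneg.2 g1.le) (sub_nonneg.2 a2)]
        · subst f2
          have : ((i : ℝ) - k) * (j - z.1) = 0 := by nlinarith
          rcases mul_eq_zero.1 this with h5 | h5
          · linarith
          · exact ⟨Or.inr (by linarith), Or.inr (by linarith)⟩
      · subst f1
        have hlj : j ≠ l := by
          rintro rfl
          exact hne rfl
        have g2 : (j : ℝ) ≠ l := by exact_mod_cast hlj
        have : (z.1 - k) * ((l : ℝ) - j) = 0 := by nlinarith
        rcases mul_eq_zero.1 this with h5 | h5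
        · exact ⟨Or.inl (by linarith), Or.inl (by linarith)⟩
        · exact absurd (by linarith) g2

end Pool.Agent.H42.RCQ
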