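import Pool.Agent.H6.RCQ.Stmts5

set_option autoImplicit false

namespace Pool.Agent.H42.RCQ

open Pool.Agent.H6.RCQ

/-- the class of a vertex -/
def cl (m t : ℕ) : ℕ := (t - 1) / m

/-- the position of a vertex in its class -/
def ps (m t : ℕ) : ℕ := (t - 1) % m

theorem cl_ps (m t : ℕ) (ht : 1 ≤ t) : t = 1 + m * cl m t + ps m t := by
  have := Nat.div_add_mod (t - 1) m
  unfold cl ps
  omega

theorem ps_lt (m t : ℕ) (hm : 0 < m) : ps m t < m := Nat.mod_lt _ hm

theorem cl_mono (m : ℕ) {s t : ℕ} (h : s ≤ t) : cl m s ≤ cl m t :=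
  Nat.div_le_div_right (by omega)

/-- the owner relation -/
inductive Rel (p : ℕ) : ℕ → ℕ → ℕ → Prop
  | hub (j : ℕ) : 1 ≤ j → Rel p 0 j (cl (3 * p + 1) j)
  | ctr (i j : ℕ) : 1 ≤ i → 1 ≤ j → ps (3 * p + 1) i = 0 → cl (3 * p + 1) j = cl (3 * p + 1) i →
      ps (3 * p + 1) j ≠ 0 → Rel p i j ((ps (3 * p + 1) j - 1) / 3)
  | lft (i j : ℕ) : 1 ≤ j → i = j + 1 → ps (3 * p + 1) i ≠ 0 → (ps (3 * p + 1) i - 1) % 3 = 1 →
      Rel p i j 0
  | rgt (i j : ℕ) : 1 ≤ i → j = i + 1 → ps (3 * p + 1) i ≠ 0 → (ps (3 * p + 1) i - 1) % 3 = 1 →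
      Rel p i j 1

theorem same_class {m s t : ℕ} (hs : 1 ≤ s) (ht : 1 ≤ t) (h : cl m s = cl m t) :
    (s : ℤ) - ps m s = t - ps m t := by
  have h1 := cl_ps m s hs
  have h2 := cl_ps m t ht
  rw [h] at h1
  omega

/-- the neighbour of a block centre is in the same class -/
theorem nbr {p i : ℕ} (hi : 1 ≤ i) (h0 : ps (3 * p + 1) i ≠ 0)
    (h1 : (ps (3 * p + 1) i - 1) % 3 = 1) :
    cl (3 * p + 1) (i + 1) = cl (3 * p + 1) i ∧ ps (3 * p + 1) (i + 1) = ps (3 * p + 1) i + 1 ∧
    cl (3 * p + 1) (i - 1) = cl (3 * p + 1) i ∧ ps (3 * p + 1) (i - 1) + 1 = ps (3 * p + 1) i ∧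
    2 ≤ i := by
  have hm : 0 < 3 * p + 1 := by omega
  have e := cl_ps (3 * p + 1) i hi
  have hlt := ps_lt (3 * p + 1) i hm
  set q := cl (3 * p + 1) i with hq
  set r := ps (3 * p + 1) i with hr
  have hr2 : 2 ≤ r := by omega
  have hr3 : r + 1 < 3 * p + 1 := by omega
  have a1 : (i + 1 - 1) = (3 * p + 1) * q + (r + 1) := by omega
  have a2 : (i - 1 - 1) = (3 * p + 1) * q + (r - 1) := by omega
  refine ⟨?_, ?_, ?_, ?_, by omega⟩
  · unfold cl
    rw [a1, Nat.mul_add_div hm, Nat.div_eq_of_lt hr3, Nat.add_zero]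
  · unfold ps
    rw [a1, Nat.mul_add_mod, Nat.mod_eq_of_lt hr3]
  · unfold cl
    rw [a2, Nat.mul_add_div hm, Nat.div_eq_of_lt (by omega), Nat.add_zero]
  · unfold ps
    rw [a2, Nat.mul_add_mod, Nat.mod_eq_of_lt (by omega)]
    omega

/-- unordered edges without the hub -/
theorem rel_edge {p i j l : ℕ} (h : Rel p i j l) (hi : 1 ≤ i) (hj : 1 ≤ j) :
    (ps (3 * p + 1) i = 0 ∧ cl (3 * p + 1) j = cl (3 * p + 1) i ∧ ps (3 * p + 1) j ≠ 0 ∧
      l = (ps (3 * p + 1) j - 1) / 3) ∨
    (cl (3 * p + 1) j = cl (3 * p + 1) i ∧ ps (3 * p + 1) i ≠ 0 ∧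
      (ps (3 * p + 1) i - 1) % 3 = 1 ∧ ps (3 * p + 1) j ≠ 0 ∧
      ((ps (3 * p + 1) j + 1 = ps (3 * p + 1) i ∧ i = j + 1 ∧ l = 0) ∨
       (ps (3 * p + 1) j = ps (3 * p + 1) i + 1 ∧ j = i + 1 ∧ l = 1))) := by
  cases h with
  | hub => omega
  | ctr _ _ _ _ h0 hc hp => exact Or.inl ⟨h0, hc, hp, rfl⟩
  | lft _ _ _ e h0 h1 =>
    obtain ⟨_, _, b3, b4, _⟩ := nbr hi h0 h1
    have e' : j = i - 1 := by omega
    subst e'
    exact Or.inr ⟨b3, h0, h1, by omega, Or.inl ⟨b4, e, rfl⟩⟩
  | rgt _ _ _ e h0 h1 =>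
    obtain ⟨b1, b2, _, _, _⟩ := nbr hi h0 h1
    subst e
    exact Or.inr ⟨b1, h0, h1, by omega, Or.inr ⟨b2, rfl, rfl⟩⟩

theorem rel_uniq {p i j l l' : ℕ} (h : Rel p i j l) (h' : Rel p i j l') : l = l' := by
  rcases Nat.eq_zero_or_pos i with rfl | hi
  · cases h with
    | hub _ h =>
      cases h' with
      | hub => rfl
      | ctr _ _ h1 => omega
      | lft _ _ _ h1 => omega
      | rgt _ _ h1 => omega
    | ctr _ _ h1 => omega
    | lft _ _ _ h1 => omega
    | rgt _ _ h1 => omega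
  · have hj : 1 ≤ j := by
      cases h with
      | hub _ h => exact h
      | ctr _ _ _ h1 => exact h1
      | lft _ _ h1 => exact h1
      | rgt _ _ _ h1 => omega
    rcases rel_edge h hi hj with ⟨a1, a2, a3, a4⟩ | ⟨a1, a2, a3, a4, a5⟩ <;>
    rcases rel_edge h' hi hj with ⟨b1, b2, b3, b4⟩ | ⟨b1, b2, b3, b4, b5⟩
    · omega
    · omega
    · omega
    · omega

open Classical in
/-- the owner function -/
noncomputable def own (p : ℕ) (i j : ℕ) : Option (Fin p) :=
  if h : ∃ l : Fin p, Rel p i j l then some h.choose else none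

theorem own_some {p i j : ℕ} (l : Fin p) (h : Rel p i j l) : own p i j = some l := by
  have hex : ∃ l : Fin p, Rel p i j l := ⟨l, h⟩
  unfold own
  rw [dif_pos hex]
  congr 1
  exact Fin.ext (rel_uniq hex.choose_spec h)

theorem own_ne {p i j : ℕ} (h : own p i j ≠ none) : ∃ l : Fin p, Rel p i j l := by
  unfold own at h
  by_contra hn
  rw [dif_neg hn] at h
  exact h rfl

theorem lo : LOStmt := by
  intro p hp
  have hm : 0 < 3 * p + 1 := by omega
  -- edges are not with the hub on the second place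
  have hsnd : ∀ {i j l : ℕ}, Rel p i j l → 1 ≤ j := by
    intro i j l h
    cases h with
    | hub _ h => exact h
    | ctr _ _ _ h1 => exact h1
    | lft _ _ h1 => exact h1
    | rgt _ _ _ h1 => omega
  refine ⟨own p, ⟨?_, ?_, ?_, ?_, ?_⟩⟩
  · intro i
    by_contra h
    obtain ⟨l, hl⟩ := own_ne h
    have h1 := hsnd hl
    rcases rel_edge hl h1 h1 with ⟨a1, a2, a3, a4⟩ | ⟨a1, a2, a3, a4, a5⟩ <;> omega
  · intro i j h
    by_contra h'
    obtain ⟨l, hl⟩ := own_ne h
    obtain ⟨l', hl'⟩ := own_ne h'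
    have h1 := hsnd hl
    have h2 := hsnd hl'
    rcases rel_edge hl h2 h1 with ⟨a1, a2, a3, a4⟩ | ⟨a1, a2, a3, a4, a5⟩ <;>
    rcases rel_edge hl' h1 h2 with ⟨b1, b2, b3, b4⟩ | ⟨b1, b2, b3, b4, b5⟩ <;> omega
  · intro i
    by_contra h
    obtain ⟨l, hl⟩ := own_ne h
    have := hsnd hl
    omega
  · -- links
    have main : ∀ i j, i ≤ 3 * p ^ 2 + p → j ≤ 3 * p ^ 2 + p → i < j →
        own p i j ≠ none ∨ own p j i ≠ none ∨
        ∃ w ≤ 3 * p ^ 2 + p, ∃ l l' : Fin p, l ≠ l' ∧ own p w i = some l ∧ own p w j = some l' := by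
      intro i j hi hj hij
      have hcl : ∀ t, 1 ≤ t → t ≤ 3 * p ^ 2 + p → cl (3 * p + 1) t < p := by
        intro t h1 h2
        unfold cl
        rw [Nat.div_lt_iff_lt_mul hm]
        have : p * (3 * p + 1) = 3 * p ^ 2 + p := by ring
        omega
      have hbl : ∀ t, ps (3 * p + 1) t ≠ 0 → (ps (3 * p + 1) t - 1) / 3 < p := by
        intro t h0
        have := ps_lt (3 * p + 1) t hm
        omega
      rcases Nat.eq_zero_or_pos i with rfl | hi0
      · left
        rw [own_some ⟨cl (3 * p + 1) j, hcl j (by omega) hj⟩ (Rel.hub j (by omega))]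
        exact Option.some_ne_none _
      have hj0 : 1 ≤ j := by omega
      by_cases hc : cl (3 * p + 1) i = cl (3 * p + 1) j
      · -- same class
        have e1 := cl_ps (3 * p + 1) i hi0
        have e2 := cl_ps (3 * p + 1) j hj0
        rw [hc] at e1
        have hpl : ps (3 * p + 1) i < ps (3 * p + 1) j := by omega
        by_cases hz : ps (3 * p + 1) i = 0
        · left
          rw [own_some ⟨(ps (3 * p + 1) j - 1) / 3, hbl j (by omega)⟩
            (Rel.ctr i j hi0 hj0 hz hc.symm (by omega))]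
          exact Option.some_ne_none _
        by_cases hb : (ps (3 * p + 1) i - 1) / 3 = (ps (3 * p + 1) j - 1) / 3
        · -- same block
          by_cases c1 : (ps (3 * p + 1) i - 1) % 3 = 1
          · left
            have hr : Rel p i j 1 := Rel.rgt i j hi0 (by omega) hz c1
            rw [own_some ⟨1, by omega⟩ hr]
            exact Option.some_ne_none _
          by_cases c2 : (ps (3 * p + 1) j - 1) % 3 = 1
          · right; left
            have hr : Rel p j i 0 := Rel.lft j i hi0 (by omega) (by omega) c2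
            rw [own_some ⟨0, by omega⟩ hr]
            exact Option.some_ne_none _
          · right; right
            have d1 : j = i + 2 := by omega
            have d2 : (ps (3 * p + 1) i - 1) % 3 = 0 := by omega
            -- the middle
            have hpi := ps_lt (3 * p + 1) j hm
            have f1 : ps (3 * p + 1) (i + 1) = ps (3 * p + 1) i + 1 := by
              have a1 : (i + 1 - 1) = (3 * p + 1) * cl (3 * p + 1) j + (ps (3 * p + 1) i + 1) := by
                omega
              have : ps (3 * p + 1) (i + 1) = (i + 1 - 1) % (3 * p + 1) := rfl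
              rw [this, a1, Nat.mul_add_mod, Nat.mod_eq_of_lt (by omega)]
            have hr0 : Rel p (i + 1) i 0 := Rel.lft (i + 1) i hi0 rfl (by omega) (by omega)
            have hr1 : Rel p (i + 1) j 1 := Rel.rgt (i + 1) j (by omega) (by omega) (by omega)
              (by omega)
            exact ⟨i + 1, by omega, ⟨0, by omega⟩, ⟨1, by omega⟩, by
              intro h
              have := congrArg Fin.val h
              simp at this, own_some _ hr0, own_some _ hr1⟩
        · -- different blocks: the centre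
          right; right
          have g1 : 1 ≤ i - ps (3 * p + 1) i := by omega
          have g2 : (i - ps (3 * p + 1) i) - 1 = (3 * p + 1) * cl (3 * p + 1) j + 0 := by omega
          have g3 : ps (3 * p + 1) (i - ps (3 * p + 1) i) = 0 := by
            have : ps (3 * p + 1) (i - ps (3 * p + 1) i) =
              ((i - ps (3 * p + 1) i) - 1) % (3 * p + 1) := rfl
            rw [this, g2, Nat.mul_add_mod, Nat.mod_eq_of_lt hm]
          have g4 : cl (3 * p + 1) (i - ps (3 * p + 1) i) = cl (3 * p + 1) j := by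
            have : cl (3 * p + 1) (i - ps (3 * p + 1) i) =
              ((i - ps (3 * p + 1) i) - 1) / (3 * p + 1) := rfl
            rw [this, g2, Nat.mul_add_div hm, Nat.div_eq_of_lt hm, Nat.add_zero]
          have hr0 := Rel.ctr (p := p) (i - ps (3 * p + 1) i) i g1 hi0 g3 (hc.trans g4.symm) hz
          have hr1 := Rel.ctr (p := p) (i - ps (3 * p + 1) i) j g1 hj0 g3 g4.symm (by omega)
          exact ⟨i - ps (3 * p + 1) i, by omega, ⟨_, hbl i hz⟩, ⟨_, hbl j (by omega)⟩, by
            intro h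
            exact hb (congrArg Fin.val h), own_some _ hr0, own_some _ hr1⟩
      · right; right
        exact ⟨0, by omega, ⟨_, hcl i hi0 hi⟩, ⟨_, hcl j hj0 hj⟩, by
          intro h
          exact hc (congrArg Fin.val h), own_some _ (Rel.hub i hi0), own_some _ (Rel.hub j hj0)⟩
    intro i j hi hj hij
    rcases lt_or_gt_of_ne hij with h | h
    · exact main i j hi hj h
    · rcases main j i hj hi h with h1 | h1 | ⟨w, hw, l, l', h1, h2, h3⟩
      · exact Or.inr (Or.inl h1)
      · exact Or.inl h1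
      · exact Or.inr (Or.inr ⟨w, hw, l', l, h1.symm, h3, h2⟩)
  · -- no crossings
    have edge : ∀ i j, 1 ≤ i → i + 1 < j → (own p i j ≠ none ∨ own p j i ≠ none) →
        ps (3 * p + 1) i = 0 ∧ cl (3 * p + 1) j = cl (3 * p + 1) i := by
      intro i j hi hij h
      have hj : 1 ≤ j := by omega
      rcases h with h | h
      · obtain ⟨l, hl⟩ := own_ne h
        rcases rel_edge hl hi hj with ⟨a1, a2, a3, a4⟩ | ⟨a1, a2, a3, a4, a5⟩
        · exact ⟨a1, a2⟩
        · omega
      · obtain ⟨l, hl⟩ := own_ne h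
        rcases rel_edge hl hj hi with ⟨a1, a2, a3, a4⟩ | ⟨a1, a2, a3, a4, a5⟩
        · have := same_class hi hj a2
          omega
        · omega
    intro i j k l h1 h2 hi hik hkj hjl
    obtain ⟨a1, a2⟩ := edge i j hi (by omega) h1
    obtain ⟨b1, b2⟩ := edge k l (by omega) (by omega) h2
    have c1 := cl_mono (3 * p + 1) (le_of_lt hik)
    have c2 := cl_mono (3 * p + 1) (le_of_lt hkj)
    have c3 : cl (3 * p + 1) k = cl (3 * p + 1) i := by omega
    have := same_class (m := 3 * p + 1) (by omega) hi c3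
    omega

end Pool.Agent.H42.RCQ
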